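import Pool.Agent.H38.PS.Targets3
import Pool.Agent.H13.PS.LP2

/-! # LPS: the triples of `Two` of large height -/

set_option autoImplicit false

open Pool.Agent.H38.RB Pool.Agent.H38.PS Pool.Agent.H13.PS

namespace Pool.Agent.H94.PS

/-- the scale of a number `t ≥ Q` -/
private lemma scale {Q t : ℝ} (hQ : 2 ≤ Q) (ht : Q ≤ t) :
    ∃ i : ℕ, Q ^ 2 ^ i ≤ t ∧ t ≤ (Q ^ 2 ^ i) ^ 2 := by
  have hl : 0 < Real.log Q := Real.log_pos (by linarith)
  have hQ0 : 0 < Q := by linarith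
  have ht0 : 0 < t := by linarith
  obtain ⟨i, h1, h2⟩ := exists_nat_pow_near (x := Real.log t / Real.log Q) (y := 2)
    ((one_le_div hl).2 (Real.log_le_log hQ0 ht)) (by norm_num)
  rw [le_div_iff₀ hl] at h1
  rw [div_lt_iff₀ hl] at h2
  refine ⟨i, ?_, ?_⟩
  · rw [← Real.log_le_log_iff (by positivity) ht0, Real.log_pow]
    push_cast
    exact h1
  · rw [← Real.log_le_log_iff ht0 (by positivity), Real.log_pow, Real.log_pow]
    push_cast
    rw [pow_succ] at h2
    linarith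

/-- the index of a scale is small -/
private lemma scale_le {Q X : ℝ} {i : ℕ} (hQ : 2 ≤ Q) (h : Q ^ 2 ^ i ≤ X ^ 10) :
    (i : ℝ) ≤ 20 * Real.log X := by
  have hlog2 := Real.log_two_gt_d9
  have hQ0 : 0 < Q := by linarith
  have h1 := Real.log_le_log (by positivity) h
  rw [Real.log_pow, Real.log_pow] at h1
  push_cast at h1
  have h2 : Real.log 2 ≤ Real.log Q := Real.log_le_log (by norm_num) hQ
  have h3 : (i : ℝ) ≤ 2 ^ i := by exact_mod_cast Nat.lt_two_pow_self.le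
  have h4 : (0 : ℝ) ≤ i := Nat.cast_nonneg _
  have h5 : (0 : ℝ) < 2 ^ i := by positivity
  nlinarith

theorem pf_LPS (hLS : T_LS) (hHB : T_HB) (hQR : T_QR) (hCOME : T_COME) : T_LPS := by
  intro ε δ hε hδ
  set γ : ℝ := ε / 4 with hγdef
  have hγ : 0 < γ := by positivity
  obtain ⟨X₁, hX₁, hfam⟩ := hLS γ δ hγ hδ
  obtain ⟨X₂, hX₂, hHB⟩ := hHB
  set X₀ : ℝ := max (max X₁ X₂) (Real.exp 2) with hX₀def
  obtain ⟨C0, hC0, hQ0⟩ := hQR 0 one_pos
  obtain ⟨C1, hC1, hQ1⟩ := hQR (1 - δ) (by linarith)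
  obtain ⟨Cc, hCc, hcom⟩ := hCOME C1 γ hC1 hγ
  set N₀ : ℕ := (⋃ t ∈ Pool.Agent.H38.RB.sq X₀, Sol 0 t.primeFactors).ncard with hN₀
  set C : ℝ := N₀ + C1 ^ 2 * Cc * (20 / γ + 2) + 1 with hC
  have hC0' : 0 ≤ C1 ^ 2 * Cc * (20 / γ + 2) := by positivity
  refine ⟨C, by positivity, ?_⟩
  intro X Y hX hY
  have hX0 : 0 < X := by linarith
  have hXε : 1 ≤ X ^ ε := Real.one_le_rpow (by linarith) hε.le
  have hprime : ∀ t : ℕ, ∀ p ∈ t.primeFactors, p.Prime :=
    fun t p hp => Nat.prime_of_mem_primeFactors hp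
  have hYε : 1 ≤ Y * X ^ ε := one_le_mul_of_one_le_of_one_le hY hXε
  by_cases hXX : X < X₀
  · -- small `X`
    obtain ⟨hU, -⟩ := union_card (Pool.Agent.H38.RB.sq X₀) (fun t => Sol 0 t.primeFactors)
      (fun t => C0 ^ (t.primeFactors.card + 1)) fun t _ => hQ0 _ (hprime t)
    have hsub : {x | x ∈ Two X Y δ ∧ Real.log X ^ 10 ≤ Real.log (ht x)} ⊆
        ⋃ t ∈ Pool.Agent.H38.RB.sq X₀, Sol 0 t.primeFactors := by
      rintro x ⟨⟨hx, hxX, -⟩, -⟩
      rw [Set.mem_iUnion₂]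
      refine ⟨pd (pr x).primeFactors, mem_sq (hprime _) (hxX.trans hXX.le), ?_⟩
      rw [pf_pd (hprime _)]
      exact mem_sol hx
    refine ⟨hU.subset hsub, ?_⟩
    have h1 : (({x | x ∈ Two X Y δ ∧ Real.log X ^ 10 ≤ Real.log (ht x)}.ncard : ℕ) : ℝ) ≤ N₀ := by
      exact_mod_cast Set.ncard_le_ncard hsub hU
    have h2 : (N₀ : ℝ) ≤ C := by
      rw [hC]
      linarith
    have h3 : C ≤ C * (Y * X ^ ε) :=
      le_mul_of_one_le_right ((Nat.cast_nonneg _).trans h2) hYε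
    calc _ ≤ C * (Y * X ^ ε) := h1.trans (h2.trans h3)
      _ = _ := by ring
  · -- large `X`
    rw [not_lt] at hXX
    have hXX1 : X₁ ≤ X := ((le_max_left _ _).trans (le_max_left _ _)).trans hXX
    have hXX2 : X₂ ≤ X := ((le_max_right _ _).trans (le_max_left _ _)).trans hXX
    have hlogX : 2 ≤ Real.log X := by
      rw [Real.le_log_iff_exp_le hX0]
      exact (le_max_right _ _).trans hXX
    set Q₀ : ℝ := Real.log X ^ 10 with hQ₀
    have hQ2 : 2 ≤ Q₀ := by
      calc (2 : ℝ) ≤ 2 ^ 10 := by norm_num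
        _ ≤ _ := pow_le_pow_left₀ (by norm_num) hlogX 10
    set K : ℕ := ⌊20 * Real.log X⌋₊ + 1 with hK
    set J : Finset ℕ := (Finset.range K).filter (fun j : ℕ => Q₀ ^ 2 ^ j ≤ X ^ 10) with hJ
    set Y' : ℝ := min Y X with hY'
    have hY'1 : 1 ≤ Y' := le_min hY (by linarith)
    set F : Finset (ℕ × ℕ) := Pool.Agent.H38.RB.sq Y' ×ˢ J with hF
    obtain ⟨hU, hUc⟩ := union_card F
      (fun i => ⋃ p ∈ fam3 X δ i.1.primeFactors (Q₀ ^ 2 ^ i.2),
        Sol (1 - δ) (insert p i.1.primeFactors))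
      (fun i => X ^ γ * C1 ^ (i.1.primeFactors.card + 2)) (by
        rintro ⟨s, j⟩ hi
        rw [hF, Finset.mem_product, hJ, Finset.mem_filter] at hi
        obtain ⟨hs, ⟨-, hj⟩⟩ := hi
        unfold Pool.Agent.H38.RB.sq at hs
        rw [Finset.mem_filter, Finset.mem_Icc] at hs
        have hsX : (s : ℝ) ≤ X := ((Nat.le_floor_iff' (by have := hs.1.1; omega)).1 hs.1.2).trans
          (min_le_right _ _)
        refine set_bound hQ1 hC1 (hprime s) (fun p hp => ⟨hp.1, hp.2.1⟩)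
          (hfam X (Q₀ ^ 2 ^ j) s.primeFactors hXX1 ?_ ?_ (hprime s) ?_)
        · exact le_self_pow₀ (by linarith) (by positivity)
        · exact hj.trans (pow_le_pow_right₀ (by linarith) (by norm_num))
        · have h3 : pd s.primeFactors ≤ s :=
            Nat.le_of_dvd (by have := hs.1.1; omega) (Nat.prod_primeFactors_dvd s)
          have h4 : ((pd s.primeFactors : ℕ) : ℝ) ≤ s := by exact_mod_cast h3
          linarith)
    have hsub : {x | x ∈ Two X Y δ ∧ Real.log X ^ 10 ≤ Real.log (ht x)} ⊆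
        ⋃ i ∈ F, ⋃ p ∈ fam3 X δ i.1.primeFactors (Q₀ ^ 2 ^ i.2),
          Sol (1 - δ) (insert p i.1.primeFactors) := by
      rintro x ⟨hxT, hxh⟩
      have hx : Adm x := hxT.1
      have hxZ : Real.log (ht x) ≤ X ^ 10 := hHB X x hXX2 hx hxT.2.1
      obtain ⟨a, b, c, p, S, hab, hac, hbc, hpp, hpS, hSp, hsY, hsX, hpX, hpb, hcS, hbS, haS,
        hsol⟩ := two_data hxT
      have hpf : (pd S).primeFactors = S := pf_pd hSp
      obtain ⟨j, hj1, hj2⟩ := scale hQ2 hxh
      have hjX : Q₀ ^ 2 ^ j ≤ X ^ 10 := hj1.trans hxZ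
      have hjK : j < K := by
        rw [hK]
        exact Nat.lt_succ_of_le (Nat.le_floor (scale_le hQ2 hjX))
      rw [Set.mem_iUnion₂]
      refine ⟨(pd S, j), ?_, ?_⟩
      · rw [hF, Finset.mem_product, hJ, Finset.mem_filter, Finset.mem_range]
        exact ⟨mem_sq hSp (le_min hsY hsX), hjK, hjX⟩
      · simp only
        rw [hpf, Set.mem_iUnion₂]
        exact ⟨p, ⟨hpp, hpS, hpX, x, a, b, c, hx, hab, hac, hbc, hcS, hbS,
          Nat.dvd_of_mem_primeFactors hpb, haS, hj1, hj2⟩, hsol⟩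
    refine ⟨hU.subset hsub, ?_⟩
    have h1 : (({x | x ∈ Two X Y δ ∧ Real.log X ^ 10 ≤ Real.log (ht x)}.ncard : ℕ) : ℝ) ≤
        ((⋃ i ∈ F, ⋃ p ∈ fam3 X δ i.1.primeFactors (Q₀ ^ 2 ^ i.2),
          Sol (1 - δ) (insert p i.1.primeFactors)).ncard : ℝ) := by
      exact_mod_cast Set.ncard_le_ncard hsub hU
    have hsum : ∑ i ∈ F, X ^ γ * C1 ^ (i.1.primeFactors.card + 2) =
        (J.card : ℝ) * X ^ γ * C1 ^ 2 *
          ∑ s ∈ Pool.Agent.H38.RB.sq Y', C1 ^ s.primeFactors.card := by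
      rw [hF, Finset.sum_product, Finset.mul_sum]
      refine Finset.sum_congr rfl fun s _ => ?_
      simp only [Finset.sum_const, nsmul_eq_mul]
      ring
    have hJc : (J.card : ℝ) ≤ (20 / γ + 2) * X ^ γ := by
      have h2 : J.card ≤ K := (Finset.card_filter_le _ _).trans (Finset.card_range K).le
      have h3 : (J.card : ℝ) ≤ K := by exact_mod_cast h2
      have h4 : (K : ℝ) ≤ 20 * Real.log X + 1 := by
        rw [hK]
        push_cast
        have := Nat.floor_le (show 0 ≤ 20 * Real.log X by linarith)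
        linarith
      have h5 := Real.log_le_rpow_div hX0.le hγ
      have h6 : 1 ≤ X ^ γ := Real.one_le_rpow (by linarith) hγ.le
      have h7 : 20 * Real.log X ≤ 20 / γ * X ^ γ := by
        calc 20 * Real.log X ≤ 20 * (X ^ γ / γ) := by linarith
          _ = _ := by ring
      nlinarith
    have hYc : Y' ^ (1 + γ) ≤ Y * X ^ γ := by
      rw [Real.rpow_add (by linarith), Real.rpow_one]
      exact mul_le_mul (min_le_left _ _) (Real.rpow_le_rpow (by linarith) (min_le_right _ _) hγ.le)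
        (by positivity) (by linarith)
    have hXγ : X ^ γ * X ^ γ * X ^ γ ≤ X ^ ε := by
      rw [← Real.rpow_add hX0, ← Real.rpow_add hX0]
      exact Real.rpow_le_rpow_of_exponent_le (by linarith) (by rw [hγdef]; linarith)
    have hXγ0 : 0 < X ^ γ := Real.rpow_pos_of_pos hX0 _
    have hs2 := hcom Y' (by linarith)
    calc _ ≤ _ := h1
      _ ≤ _ := hUc
      _ = _ := hsum
      _ ≤ ((20 / γ + 2) * X ^ γ) * X ^ γ * C1 ^ 2 * (Cc * (Y * X ^ γ)) := by
          have h8 : ∑ s ∈ Pool.Agent.H38.RB.sq Y', C1 ^ s.primeFactors.card ≤ Cc * (Y * X ^ γ) :=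
            hs2.trans (mul_le_mul_of_nonneg_left hYc hCc.le)
          refine mul_le_mul ?_ h8 (Finset.sum_nonneg fun _ _ => by positivity) (by positivity)
          exact mul_le_mul_of_nonneg_right (mul_le_mul_of_nonneg_right hJc hXγ0.le) (by positivity)
      _ = C1 ^ 2 * Cc * (20 / γ + 2) * Y * (X ^ γ * X ^ γ * X ^ γ) := by ring
      _ ≤ C1 ^ 2 * Cc * (20 / γ + 2) * Y * X ^ ε :=
          mul_le_mul_of_nonneg_left hXγ (by positivity)
      _ ≤ C * Y * X ^ ε := by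
          refine mul_le_mul_of_nonneg_right (mul_le_mul_of_nonneg_right ?_ (by linarith))
            (by linarith)
          rw [hC]
          have : (0 : ℝ) ≤ N₀ := Nat.cast_nonneg _
          linarith

end Pool.Agent.H94.PS
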